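import Pool.Agent.H301Z.CH.A

/-! The Chebyshev argument on rough numbers. -/

set_option autoImplicit false

open Finset Filter Topology

namespace Pool.Agent.H301Z.CH

open Pool.Agent.H392Z.MO Pool.Agent.H293Z.MO

theorem theta_bound (t : ℝ) (ht : 0 ≤ t) :
    ∑ p ∈ (Icc 1 ⌊t⌋₊).filter Nat.Prime, Real.log p ≤ 2 * t := by
  have h := Chebyshev.theta_le_log4_mul_x ht
  have h2 : Real.log 4 ≤ 2 := by
    have : Real.log 4 = 2 * Real.log 2 := by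
      rw [show (4 : ℝ) = 2 ^ 2 by norm_num, Real.log_pow]; norm_num
    have := Real.log_two_lt_d9
    linarith
  have h3 : Chebyshev.theta t = ∑ p ∈ (Icc 1 ⌊t⌋₊).filter Nat.Prime, Real.log p := by
    rw [Chebyshev.theta_eq_sum_Icc]
    refine Finset.sum_congr ?_ (fun _ _ => rfl)
    ext p
    simp only [mem_filter, mem_Icc]
    constructor
    · rintro ⟨h, hp⟩
      exact ⟨⟨hp.one_lt.le, h.2⟩, hp⟩
    · rintro ⟨h, hp⟩
      exact ⟨⟨Nat.zero_le _, h.2⟩, hp⟩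
  rw [← h3]
  nlinarith

open Classical in
/-- contribution of the small primes -/
theorem small_primes (s : ℕ) (C CL R D₁ : ℝ) (a L : ℕ) (hC : 0 < C) (hR : 2 ≤ R) (hD : 1 ≤ D₁)
    (hFL : ∀ a L : ℕ, |(((Ico a (a + L)).filter (Rough R)).card : ℝ) - L * VV R| ≤
      1 / 20 * L * VV R + C * R ^ s)
    (hM : ∀ N : ℕ, 1 ≤ N →
      |∑ p ∈ (Finset.Icc 1 N).filter Nat.Prime, Real.log p / p - Real.log N| ≤ CL) :
    ∑ p ∈ (Icc 1 ⌊D₁⌋₊).filter Nat.Prime,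
        (((Ico a (a + L)).filter (fun n => p ∣ n ∧ Rough R (n / p))).card : ℝ) * Real.log p ≤
      21 / 20 * L * VV R * (Real.log D₁ + CL) + 2 * D₁ * ((3 + C) * R ^ s) := by
  have hV0 := VV_nonneg R
  have hV1 := VV_le_one R
  have hRs : 1 ≤ R ^ s := one_le_pow₀ (by linarith)
  have h1 : ∀ p ∈ (Icc 1 ⌊D₁⌋₊).filter Nat.Prime,
      (((Ico a (a + L)).filter (fun n => p ∣ n ∧ Rough R (n / p))).card : ℝ) * Real.log p ≤
        21 / 20 * L * VV R * (Real.log p / p) + ((3 + C) * R ^ s) * Real.log p := by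
    intro p hp
    have hp0 : 0 < p := (mem_filter.1 hp).2.pos
    have hp0' : (0 : ℝ) < p := by exact_mod_cast hp0
    have hl : 0 ≤ Real.log p := Real.log_natCast_nonneg p
    have h2 := card_mult a L p hp0 (Rough R)
    have h3 := (abs_le.1 (hFL (a / p) (L / p + 2))).2
    have h4 : ((L / p : ℕ) : ℝ) ≤ (L : ℝ) / p := Nat.cast_div_le
    have h5 : (((Ico a (a + L)).filter (fun n => p ∣ n ∧ Rough R (n / p))).card : ℝ) ≤
        (((Ico (a / p) (a / p + (L / p + 2))).filter (Rough R)).card : ℝ) := by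
      exact_mod_cast (by convert h2)
    push_cast at h3
    have h6 : ((L / p : ℕ) : ℝ) * VV R ≤ (L : ℝ) / p * VV R := mul_le_mul_of_nonneg_right h4 hV0
    have h7 : (((Ico a (a + L)).filter (fun n => p ∣ n ∧ Rough R (n / p))).card : ℝ) ≤
        21 / 20 * ((L : ℝ) / p * VV R) + (3 + C) * R ^ s := by nlinarith
    calc _ ≤ (21 / 20 * ((L : ℝ) / p * VV R) + (3 + C) * R ^ s) * Real.log p :=
          mul_le_mul_of_nonneg_right h7 hl
      _ = _ := by ring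
  refine (Finset.sum_le_sum h1).trans ?_
  rw [Finset.sum_add_distrib, ← Finset.mul_sum, ← Finset.mul_sum]
  have hN1 : 1 ≤ ⌊D₁⌋₊ := Nat.le_floor (by exact_mod_cast hD)
  have h2 := (abs_le.1 (hM _ hN1)).2
  have h3 : Real.log (⌊D₁⌋₊ : ℝ) ≤ Real.log D₁ :=
    Real.log_le_log (by exact_mod_cast hN1) (Nat.floor_le (by linarith))
  have h4 := theta_bound D₁ (by linarith)
  have h5 : (0 : ℝ) ≤ 21 / 20 * L * VV R := by positivity
  have h6 : (0 : ℝ) ≤ (3 + C) * R ^ s := by positivity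
  have h7 := mul_le_mul_of_nonneg_left
    (show ∑ p ∈ (Finset.Icc 1 ⌊D₁⌋₊).filter Nat.Prime, Real.log p / p ≤ Real.log D₁ + CL by
      linarith) h5
  have h8 := mul_le_mul_of_nonneg_left h4 h6
  linarith

/-- the final arithmetic -/
theorem arith (l W V U T N g S₁ S₂ la C CL K : ℝ) (hl : 1 ≤ l) (hW : 0 ≤ W)
    (hV1 : V ≤ 1) (hU : 1 ≤ U) (hC : 0 < C) (hCL : 0 ≤ CL)
    (hlC : 100 * CL ≤ l) (hlK : 100 * K ≤ l) (hUW : 100 * (30 + 3 * C) * U ≤ W)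
    (hla : l ≤ la) (hg : 19 / 20 * (W - V) - C * U ≤ g) (hg0 : 0 ≤ g) (hN : N ≤ 11 * U)
    (hS₁ : S₁ ≤ 21 / 20 * (W + V) * (l / 2 + CL) + 2 * (3 + C) * U)
    (hS₂ : S₂ ≤ 1 / 20 * W * l + K * W)
    (h : g * la ≤ T * (2 * l) + N * (2 * l) + S₁ + S₂) : W / 10 ≤ T := by
  have h1 : g * l ≤ g * la := mul_le_mul_of_nonneg_left hla hg0
  have h2 : (19 / 20 * (W - V) - C * U) * l ≤ g * l :=
    mul_le_mul_of_nonneg_right hg (by linarith)
  have h3 : N * (2 * l) ≤ 11 * U * (2 * l) := mul_le_mul_of_nonneg_right hN (by linarith)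
  have h4 : K * W ≤ l / 100 * W := mul_le_mul_of_nonneg_right (by linarith) hW
  have h5 : (W + V) * (l / 2 + CL) ≤ (W + U) * (l / 2 + l / 100) :=
    mul_le_mul (by linarith) (by linarith) (by linarith) (by linarith)
  have h6 : V * l ≤ U * l := mul_le_mul_of_nonneg_right (by linarith) (by linarith)
  have h7 : (3 + C) * U ≤ (3 + C) * U * l := le_mul_of_one_le_right (by positivity) hl
  have h8 : 100 * (30 + 3 * C) * U * l ≤ W * l := mul_le_mul_of_nonneg_right hUW (by linarith)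
  have hUl : 0 ≤ U * l := by positivity
  have hWl : 0 ≤ W * l := by positivity
  have h9 : W / 10 * (2 * l) ≤ T * (2 * l) := by nlinarith
  exact le_of_mul_le_mul_right h9 (by linarith)

theorem ev_log (σ η : ℝ) (hσ : 0 < σ) (hη : 0 < η) :
    ∀ᶠ x : ℝ in atTop, Real.log x ≤ η * x ^ σ := by
  have h := (isLittleO_log_rpow_atTop hσ).bound hη
  filter_upwards [h, eventually_ge_atTop (1 : ℝ)] with x hx h1
  rw [Real.norm_of_nonneg (Real.log_nonneg h1),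
    Real.norm_of_nonneg (Real.rpow_nonneg (by linarith) _)] at hx
  exact hx

/-- the middle range -/
theorem mid (CM cV σ s l H V S lD lq : ℝ) (hCM : 0 < CM) (hcV : 0 < cV) (hσ0 : 0 < σ)
    (hσ1 : σ ≤ 1 / 1000) (hs : 0 ≤ s) (hl : 1 ≤ l) (hH : 0 < H)
    (hσ3 : 51 * CM * ((s + 3) * σ) ≤ cV / 20) (hlD : lD = (1 / 2 + σ) * l)
    (hlq : lq ≤ (s + 3) * σ * l) (hWc : cV * H / (σ * l) ≤ H * V)
    (hmed : S ≤ CM * H * (1 + lq) / (1 / 100 * l * (σ * l))) :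
    S * lD ≤ 1 / 20 * (H * V) * l + 51 * CM / cV * (H * V) := by
  have hl0 : 0 < l := by linarith
  have h1 : lD ≤ 51 / 100 * l := by rw [hlD]; nlinarith
  have h2 : CM * H * (1 + lq) / (1 / 100 * l * (σ * l)) ≤
      CM * H * (1 + (s + 3) * σ * l) / (1 / 100 * l * (σ * l)) := by
    refine div_le_div_of_nonneg_right ?_ (by positivity)
    exact mul_le_mul_of_nonneg_left (by linarith) (by positivity)
  have h3 := mul_le_mul (hmed.trans h2) h1 (by rw [hlD]; positivity) (by positivity)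
  refine h3.trans ?_
  have h4 : CM * H * (1 + (s + 3) * σ * l) / (1 / 100 * l * (σ * l)) * (51 / 100 * l) =
      (51 * CM / cV + 51 * CM * ((s + 3) * σ) / cV * l) * (cV * H / (σ * l)) := by
    field_simp
  rw [h4]
  have h5 : 51 * CM * ((s + 3) * σ) / cV ≤ 1 / 20 := by
    rw [div_le_iff₀ hcV]; linarith
  have h6 : 51 * CM * ((s + 3) * σ) / cV * l ≤ 1 / 20 * l :=
    mul_le_mul_of_nonneg_right h5 hl0.le
  calc _ ≤ (51 * CM / cV + 1 / 20 * l) * (H * V) :=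
        mul_le_mul (by linarith) hWc (by positivity) (by positivity)
    _ = _ := by ring

theorem uw (C cV σ l H R W : ℝ) (hC : 0 < C) (hσ0 : 0 < σ) (hl : 1 ≤ l) (hH : 0 < H) (hR : 0 < R)
    (hlx : l ≤ cV / (σ * (100 * (30 + 3 * C))) * R) (hWc : cV * H / (σ * l) ≤ W) :
    100 * (30 + 3 * C) * (H / R) ≤ W := by
  have hσl : 0 < σ * l := by positivity
  refine le_trans ?_ hWc
  rw [le_div_iff₀ hσl]
  have h1 : σ * (100 * (30 + 3 * C)) * l ≤ cV * R := by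
    have := mul_le_mul_of_nonneg_left hlx (show 0 ≤ σ * (100 * (30 + 3 * C)) by positivity)
    calc _ ≤ _ := this
      _ = cV * R := by field_simp
  calc 100 * (30 + 3 * C) * (H / R) * (σ * l)
      = (σ * (100 * (30 + 3 * C)) * l) * (H / R) := by ring
    _ ≤ (cV * R) * (H / R) := mul_le_mul_of_nonneg_right h1 (by positivity)
    _ = cV * H := by field_simp

open Classical in
/-- square divisors -/
theorem sqpart (x H R q t : ℝ) (a L : ℕ) (hx : 4 ≤ x) (hH1 : 1 ≤ H) (hR3 : 3 ≤ R) (hRt : R ≤ t)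
    (ht : t * (t * t) = x) (hq : q * q = x) (hq1 : 1 ≤ q) (hHq : H ≤ q) (htU : t ≤ H / R)
    (ha1 : x ≤ a) (hb2 : (a : ℝ) + L < x + H + 1) :
    (((Ico a (a + L)).filter (fun n => ∃ m : ℕ, ⌊R⌋₊ < m ∧ m ^ 2 ∣ n)).card : ℝ) ≤
      11 * (H / R) := by
  have hR0 : 0 < R := by linarith
  have ht0 : 0 < t := by linarith
  have hL0 : (0 : ℝ) ≤ L := Nat.cast_nonneg L
  have hL2 : (L : ℝ) ≤ H + 1 := by linarith
  have ha0 : 0 < a := by
    have : (0 : ℝ) < a := by linarith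
    exact_mod_cast this
  have hqx : q ≤ x := by nlinarith
  obtain ⟨U, hU⟩ : ∃ U, U = H / R := ⟨_, rfl⟩
  have hUR : U * R = H := by rw [hU]; exact div_mul_cancel₀ _ hR0.ne'
  rw [← hU] at htU ⊢
  obtain ⟨Y, hY⟩ : ∃ Y : ℕ, Y = ⌈t⌉₊ := ⟨_, rfl⟩
  have hY1 : t ≤ Y := hY ▸ Nat.le_ceil _
  have hY2 : (Y : ℝ) < t + 1 := hY ▸ Nat.ceil_lt_add_one ht0.le
  obtain ⟨r, hr⟩ : ∃ r : ℕ, r = ⌊R⌋₊ := ⟨_, rfl⟩
  have hr1 : (r : ℝ) ≤ R := hr ▸ Nat.floor_le hR0.le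
  have hr2 : R < r + 1 := hr ▸ Nat.lt_floor_add_one R
  have hr0 : 0 < r := hr ▸ Nat.floor_pos.2 (by linarith)
  rw [← hr]
  have hrY : r ≤ Y := by
    have : (r : ℝ) ≤ Y := by linarith
    exact_mod_cast this
  have hLa : L ^ 2 ≤ 4 * a := by
    have h1 : (L : ℝ) ≤ 2 * q := by linarith
    have h2 : (L : ℝ) ^ 2 ≤ 4 * a := by nlinarith
    exact_mod_cast h2
  have hsqc := card_sq a L r Y hr0 hrY ha0 hLa
  have hN1 : (L : ℝ) / r ≤ 4 * U := by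
    rw [div_le_iff₀ (by exact_mod_cast hr0)]
    have h2 : R ≤ 2 * r := by linarith
    nlinarith
  have hN2 : ((a : ℝ) + L) / (Y : ℝ) ^ 2 ≤ 3 * U := by
    have hY0 : (0 : ℝ) < Y := ht0.trans_le hY1
    rw [div_le_iff₀ (by positivity)]
    have h2 : t * t ≤ (Y : ℝ) ^ 2 := by
      rw [sq]; exact mul_le_mul hY1 hY1 ht0.le hY0.le
    have h3 : t * (t * t) ≤ U * (Y : ℝ) ^ 2 :=
      mul_le_mul htU h2 (by positivity) (by linarith)
    linarith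
  linarith

theorem ival (x H : ℝ) (hx : 0 < x) (hH : 0 < H) : ∃ a L : ℕ, Ival x H = Ico a (a + L) ∧
    x ≤ a ∧ (a : ℝ) < x + 1 ∧ x + H ≤ (a : ℝ) + L ∧ (a : ℝ) + L < x + H + 1 := by
  have hab : ⌈x⌉₊ ≤ ⌈x + H⌉₊ := Nat.ceil_mono (by linarith)
  have haL : ⌈x⌉₊ + (⌈x + H⌉₊ - ⌈x⌉₊) = ⌈x + H⌉₊ := by omega
  refine ⟨⌈x⌉₊, ⌈x + H⌉₊ - ⌈x⌉₊, by rw [haL]; rfl, Nat.le_ceil x, Nat.ceil_lt_add_one hx.le,
    ?_, ?_⟩
  · have := Nat.le_ceil (x + H)
    rw [← haL] at this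
    exact_mod_cast this
  · have := Nat.ceil_lt_add_one (show 0 ≤ x + H by linarith)
    rw [← haL] at this
    exact_mod_cast this

theorem expo (σ s : ℝ) (hσ0 : 0 < σ) (hσ1 : σ ≤ 1 / 1000) (hs : 0 ≤ s)
    (hσ2 : (s + 3) * σ ≤ 1 / 100) :
    49 / 100 + σ ≤ 1 / 2 - σ ∧ σ * s ≤ 49 / 100 ∧ 49 / 100 + σ * s + σ ≤ 1 / 2 - σ ∧
      1 / 2 - (s + 2) * σ + σ * s + σ ≤ 1 / 2 - σ ∧ (0 : ℝ) ≤ 1 / 2 - σ ∧
      (1 / 2 : ℝ) ≤ 1 / 2 + σ ∧ σ ≤ 1 / 100 ∧ 499 / 1000 ≤ 1 / 2 - σ ∧ 1 / 2 + σ ≤ 51 / 100 ∧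
      σ ≤ 1 / 3 := by
  refine ⟨by linarith, by nlinarith, by nlinarith, by nlinarith, by linarith, by linarith,
    by linarith, by linarith, by linarith, by linarith⟩

theorem logB (x H q : ℝ) (a L : ℕ) (hx : 4 ≤ x) (hq : q * q = x) (hq1 : 1 ≤ q) (hHq : H ≤ q)
    (ha1 : x ≤ a) (hb2 : (a : ℝ) + L < x + H + 1) :
    Real.log ((a + L : ℕ) : ℝ) ≤ 2 * Real.log x := by
  have hL0 : (0 : ℝ) ≤ L := Nat.cast_nonneg L
  have hqx : q ≤ x := by nlinarith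
  have h1 : ((a + L : ℕ) : ℝ) ≤ x ^ 2 := by
    push_cast
    nlinarith
  have h2 := Real.log_le_log (by push_cast; linarith) h1
  rw [Real.log_pow] at h2
  exact_mod_cast h2

open Classical in
theorem ch : S_CH := by
  rintro ⟨s, C, hC, hFL⟩ ⟨CM, x₀, hCM, hMED⟩
  obtain ⟨cV, hcV, hVl⟩ := VV_lower
  obtain ⟨CL, hCL⟩ := Pool.Agent.Helper256.KM.mertens_log
  have hCL0 : 0 ≤ CL := (abs_nonneg _).trans (hCL 1 le_rfl)
  have hs0 : (0 : ℝ) ≤ s := Nat.cast_nonneg s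
  obtain ⟨σ, hσ0, hσ1, hσ2, hσ3⟩ : ∃ σ : ℝ, 0 < σ ∧ σ ≤ 1 / 1000 ∧ (s + 3) * σ ≤ 1 / 100 ∧
      51 * CM * ((s + 3) * σ) ≤ cV / 20 := by
    refine ⟨min (1 / 1000) (min (1 / 100 / (s + 3)) (cV / 20 / (51 * CM * (s + 3)))),
      by positivity, min_le_left _ _, ?_, ?_⟩
    · have h1 := (min_le_right (1 / 1000 : ℝ) (min (1 / 100 / (s + 3))
        (cV / 20 / (51 * CM * (s + 3))))).trans (min_le_left _ _)
      rw [le_div_iff₀ (by positivity)] at h1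
      linarith
    · have h1 := (min_le_right (1 / 1000 : ℝ) (min (1 / 100 / (s + 3))
        (cV / 20 / (51 * CM * (s + 3))))).trans (min_le_right _ _)
      rw [le_div_iff₀ (by positivity)] at h1
      linarith
  obtain ⟨E1, E2, E3, E4, E5, E6, E7, E8, E9, E10⟩ := expo σ s hσ0 hσ1 hs0 hσ2
  refine ⟨σ, cV / (10 * σ), hσ0, hσ1, by positivity, ?_⟩
  have e1 : ∀ᶠ x : ℝ in atTop, (3 : ℝ) ≤ x ^ σ :=
    (tendsto_rpow_atTop hσ0).eventually_ge_atTop 3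
  have e2 : ∀ᶠ x : ℝ in atTop, max 1 (max (100 * CL) (100 * (51 * CM / cV))) ≤ Real.log x :=
    Real.tendsto_log_atTop.eventually_ge_atTop _
  have e3 := ev_log σ (cV / (σ * (100 * (30 + 3 * C)))) hσ0 (by positivity)
  have e4 : ∀ᶠ x : ℝ in atTop, max x₀ 4 ≤ x := eventually_ge_atTop _
  obtain ⟨x₁, hx₁⟩ := eventually_atTop.1 (e1.and (e2.and (e3.and e4)))
  refine ⟨x₁, fun x hx H hH1 hH2 => ?_⟩
  obtain ⟨hR3, hl, hlx, hx4⟩ := hx₁ x hx
  clear hx₁ e1 e2 e3 e4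
  have hx0 : x₀ ≤ x := (le_max_left _ _).trans hx4
  have hx4' : (4 : ℝ) ≤ x := (le_max_right _ _).trans hx4
  have hx1 : (1 : ℝ) ≤ x := by linarith only [hx4']
  have hxp : (0 : ℝ) < x := by linarith only [hx4']
  have hl1 : 1 ≤ Real.log x := (le_max_left _ _).trans hl
  have hl2 : 100 * CL ≤ Real.log x := ((le_max_left _ _).trans (le_max_right _ _)).trans hl
  have hl3 : 100 * (51 * CM / cV) ≤ Real.log x :=
    ((le_max_right _ _).trans (le_max_right _ _)).trans hl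
  have mono : ∀ u v : ℝ, u ≤ v → x ^ u ≤ x ^ v := fun u v h =>
    Real.rpow_le_rpow_of_exponent_le hx1 h
  have pos : ∀ u : ℝ, 0 < x ^ u := fun u => Real.rpow_pos_of_pos hxp u
  have lg : ∀ u : ℝ, Real.log (x ^ u) = u * Real.log x := fun u => Real.log_rpow hxp u
  have hR0 : 0 < x ^ σ := pos σ
  have hR2 : 2 ≤ x ^ σ := by linarith only [hR3]
  have hR1 : 1 ≤ x ^ σ := by linarith only [hR3]
  have hV0 : 0 ≤ VV (x ^ σ) := VV_nonneg _
  have hV1 : VV (x ^ σ) ≤ 1 := VV_le_one _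
  have hVc : cV / (σ * Real.log x) ≤ VV (x ^ σ) := by
    have := hVl _ hR3
    rwa [lg] at this
  have hH0 : 0 < H := (pos _).trans_le hH1
  have hsq : x ^ (1 / 2 : ℝ) * x ^ (1 / 2 : ℝ) = x := by
    rw [← Real.rpow_add hxp]; norm_num
  have hcu : x ^ (1 / 3 : ℝ) * (x ^ (1 / 3 : ℝ) * x ^ (1 / 3 : ℝ)) = x := by
    rw [← Real.rpow_add hxp, ← Real.rpow_add hxp]; norm_num
  have hsq1 : 1 ≤ x ^ (1 / 2 : ℝ) := Real.one_le_rpow hx1 (by norm_num)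
  have hH1' : 1 ≤ H := (Real.one_le_rpow hx1 E5).trans hH1
  have hU49 : x ^ (49 / 100 : ℝ) ≤ H / x ^ σ := by
    rw [le_div_iff₀ hR0, ← Real.rpow_add hxp]
    exact (mono _ _ E1).trans hH1
  have hU1 : 1 ≤ H / x ^ σ := (Real.one_le_rpow hx1 (by norm_num)).trans hU49
  have hRs : (x ^ σ) ^ s = x ^ (σ * s) := by
    rw [Real.rpow_mul hxp.le, Real.rpow_natCast]
  have hRsU : (x ^ σ) ^ s ≤ H / x ^ σ := by
    rw [hRs]
    exact (mono _ _ E2).trans hU49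
  have h3U : x ^ (1 / 3 : ℝ) ≤ H / x ^ σ := (mono _ _ (by norm_num)).trans hU49
  have hRs0 : 0 < (x ^ σ) ^ s := pow_pos hR0 s
  have hRs1 : 1 ≤ (x ^ σ) ^ s := one_le_pow₀ hR1
  obtain ⟨D₁, hD₁def⟩ : ∃ D₁, D₁ = H / x ^ σ / (x ^ σ) ^ s := ⟨_, rfl⟩
  have hD₁U : D₁ * (x ^ σ) ^ s = H / x ^ σ := by
    rw [hD₁def]; exact div_mul_cancel₀ _ hRs0.ne'
  have hD49 : x ^ (49 / 100 : ℝ) ≤ D₁ := by
    rw [hD₁def, le_div_iff₀ hRs0, le_div_iff₀ hR0, hRs, ← Real.rpow_add hxp,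
      ← Real.rpow_add hxp]
    exact (mono _ _ E3).trans hH1
  have hD1 : 1 ≤ D₁ := (Real.one_le_rpow hx1 (by norm_num)).trans hD49
  have hD0 : 0 < D₁ := one_pos.trans_le hD1
  have hUH : H / x ^ σ ≤ H := div_le_self hH0.le hR1
  have hDH : D₁ ≤ H := by
    rw [hD₁def]
    exact (div_le_self (one_pos.le.trans hU1) hRs1).trans hUH
  have hD12 : D₁ ≤ x ^ (1 / 2 + σ) := hDH.trans (hH2.trans (mono _ _ E6))
  have hlD₁ : Real.log D₁ ≤ Real.log x / 2 := by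
    have := Real.log_le_log hD0 (hDH.trans hH2)
    rw [lg] at this
    linarith only [this]
  have hlD12 : Real.log (x ^ (1 / 2 + σ) / D₁) ≤ (s + 3) * σ * Real.log x := by
    have h1 : x ^ (1 / 2 - (s + 2) * σ) ≤ D₁ := by
      rw [hD₁def, le_div_iff₀ hRs0, le_div_iff₀ hR0, hRs, ← Real.rpow_add hxp,
        ← Real.rpow_add hxp]
      exact (mono _ _ E4).trans hH1
    have h2 := Real.log_le_log (pos _) h1
    rw [lg] at h2
    rw [Real.log_div (pos _).ne' hD0.ne', lg]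
    linarith only [h2]
  have hz2 : 2 ≤ x ^ (1 / 100 : ℝ) := hR2.trans (mono _ _ E7)
  have hmed := hMED x hx0 H ((mono _ _ E8).trans hH1) hH2 D₁ (x ^ (1 / 2 + σ))
    (x ^ (1 / 100 : ℝ)) (x ^ σ) hD49 hD12 (mono _ _ E9) hz2 le_rfl hR2 (mono _ _ E7)
  obtain ⟨a, L, hI, ha1, ha2, hb1, hb2⟩ := ival x H hxp hH0
  have ha0 : 0 < a := by
    have : (0 : ℝ) < a := hxp.trans_le ha1
    exact_mod_cast this
  have hL1 : H - 1 ≤ L := by linarith only [ha2, hb1]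
  have hL2 : (L : ℝ) ≤ H + 1 := by linarith only [ha1, hb2]
  have hB := logB x H _ a L hx4' hsq hsq1 hH2 ha1 hb2
  have hsum := summed a L ha0 (x ^ σ) D₁ (x ^ (1 / 2 + σ)) (x ^ (1 / 100 : ℝ)) (2 * Real.log x)
    hR0.le hD0.le ((mono _ _ (by norm_num)).trans hD49) (hD1.trans hD12) hB
  have hsm := small_primes s C CL (x ^ σ) D₁ a L hC hR2 hD1 (hFL _ hR2) hCL
  have hg := (abs_le.1 (hFL _ hR2 a L)).1
  have hN := sqpart x H (x ^ σ) _ _ a L hx4' hH1' hR3 (mono _ _ E10) hcu hsq hsq1 hH2 h3U ha1 hb2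
  have hWc : cV * H / (σ * Real.log x) ≤ H * VV (x ^ σ) := by
    have := mul_le_mul_of_nonneg_left hVc hH0.le
    calc cV * H / (σ * Real.log x) = H * (cV / (σ * Real.log x)) := by ring
      _ ≤ _ := this
  have hUW := uw C cV σ _ H _ _ hC hσ0 hl1 hH0 hR0 hlx hWc
  rw [hI, lg, lg σ] at hmed
  have hS₂ := mid CM cV σ s _ H _ _ _ _ hCM hcV hσ0 hσ1 hs0 hl1 hH0 hσ3 (lg (1 / 2 + σ)) hlD12
    hWc hmed
  have hLV1 : (H - 1) * VV (x ^ σ) ≤ L * VV (x ^ σ) := mul_le_mul_of_nonneg_right hL1 hV0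
  have hLV2 : (L : ℝ) * VV (x ^ σ) ≤ (H + 1) * VV (x ^ σ) := mul_le_mul_of_nonneg_right hL2 hV0
  have hHV : 0 ≤ H * VV (x ^ σ) := mul_nonneg hH0.le hV0
  have hfin := arith (Real.log x) (H * VV (x ^ σ)) (VV (x ^ σ)) (H / x ^ σ) _ _ _ _ _
    (Real.log a) C CL (51 * CM / cV) hl1 hHV hV1 hU1 hC hCL0 hl2 hl3 hUW
    (Real.log_le_log hxp ha1) ?_ (Nat.cast_nonneg _) hN ?_ hS₂ hsum
  · rw [hI]
    refine le_trans ?_ hfin
    have h0 : Real.log x ≠ 0 := by linarith only [hl1]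
    calc cV / (10 * σ) * H / Real.log x = cV * H / (σ * Real.log x) / 10 := by field_simp
      _ ≤ _ := by linarith only [hWc]
  · have := mul_le_mul_of_nonneg_left hRsU hC.le
    linarith only [this, hg, hLV1]
  · refine hsm.trans ?_
    have h1 : (L : ℝ) * VV (x ^ σ) * (Real.log D₁ + CL) ≤
        (H * VV (x ^ σ) + VV (x ^ σ)) * (Real.log x / 2 + CL) :=
      mul_le_mul (by linarith only [hLV2]) (by linarith only [hlD₁])
        (add_nonneg (Real.log_nonneg hD1) hCL0) (add_nonneg hHV hV0)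
    have h2 : 2 * D₁ * ((3 + C) * (x ^ σ) ^ s) = 2 * (3 + C) * (H / x ^ σ) := by
      rw [← hD₁U]; ring
    linarith only [h1, h2]

end Pool.Agent.H301Z.CH
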