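import Mathlib
import Pool.Agent.H293Z.MO.Sub
import Pool.Agent.Helper256.KM.Mertens

/-! Counting lemmas for the Chebyshev argument on rough numbers. -/

set_option autoImplicit false

open Finset

namespace Pool.Agent.H301Z.CH

open Pool.Agent.H392Z.MO Pool.Agent.H293Z.MO

theorem tele (N : ℕ) :
    ∑ n ∈ (range (N + 1)).filter Nat.Prime, ((1 : ℝ) / (n - 1) - 1 / n) ≤ 1 := by
  have h : ∀ M : ℕ, ∑ n ∈ Ico 2 (M + 2), ((1 : ℝ) / (n - 1) - 1 / n) = 1 - 1 / ((M : ℝ) + 1) := by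
    intro M
    induction M with
    | zero => simp
    | succ M ih =>
      rw [show M + 1 + 2 = (M + 2) + 1 by ring, Finset.sum_Ico_succ_top (by omega), ih]
      push_cast
      have : ((M : ℝ) + 2 - 1) = M + 1 := by ring
      rw [this]
      ring
  have h1 : ∑ n ∈ (range (N + 1)).filter Nat.Prime, ((1 : ℝ) / (n - 1) - 1 / n) ≤
      ∑ n ∈ Ico 2 (N + 2), ((1 : ℝ) / (n - 1) - 1 / n) := by
    refine Finset.sum_le_sum_of_subset_of_nonneg ?_ ?_
    · intro n hn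
      rw [mem_filter, mem_range] at hn
      rw [mem_Ico]
      exact ⟨hn.2.two_le, by omega⟩
    · intro n hn _
      rw [mem_Ico] at hn
      have h2 : (2 : ℝ) ≤ n := by exact_mod_cast hn.1
      have : (1 : ℝ) / n ≤ 1 / (n - 1) := one_div_le_one_div_of_le (by linarith) (by linarith)
      linarith
  rw [h] at h1
  have : (0 : ℝ) ≤ 1 / ((N : ℝ) + 1) := by positivity
  linarith

theorem VV_nonneg (z : ℝ) : 0 ≤ VV z := by
  unfold VV
  refine Finset.prod_nonneg fun p hp => ?_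
  have h1 : (1 : ℝ) ≤ p := by exact_mod_cast (mem_filter.1 hp).2.one_lt.le
  have : (1 : ℝ) / p ≤ 1 := by rw [div_le_one (by linarith)]; exact h1
  linarith

theorem VV_le_one (z : ℝ) : VV z ≤ 1 := by
  unfold VV
  refine Finset.prod_le_one (fun p hp => ?_) (fun p _ => ?_)
  · have h1 : (1 : ℝ) ≤ p := by exact_mod_cast (mem_filter.1 hp).2.one_lt.le
    have : (1 : ℝ) / p ≤ 1 := by rw [div_le_one (by linarith)]; exact h1
    linarith
  · have : (0 : ℝ) ≤ 1 / (p : ℝ) := by positivity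
    linarith

theorem VV_lower : ∃ c : ℝ, 0 < c ∧ ∀ z : ℝ, 3 ≤ z → c / Real.log z ≤ VV z := by
  obtain ⟨C, hC⟩ := Pool.Agent.Helper256.KM.mertens_inv
  refine ⟨Real.exp (-C - 1), Real.exp_pos _, fun z hz => ?_⟩
  set N := ⌊z⌋₊ with hN
  have hN3 : 3 ≤ N := Nat.le_floor (by exact_mod_cast hz)
  have hN3' : (3 : ℝ) ≤ N := by exact_mod_cast hN3
  have hNz : (N : ℝ) ≤ z := Nat.floor_le (by linarith)
  have hlN : 0 < Real.log N := Real.log_pos (by linarith)
  have hlz : Real.log N ≤ Real.log z := Real.log_le_log (by linarith) hNz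
  have hset : (Icc 1 N).filter Nat.Prime = (range (N + 1)).filter Nat.Prime := by
    ext p
    simp only [mem_filter, mem_Icc, mem_range]
    constructor
    · rintro ⟨h, hp⟩
      exact ⟨by omega, hp⟩
    · rintro ⟨h, hp⟩
      exact ⟨⟨hp.one_lt.le, by omega⟩, hp⟩
  have hJ := (abs_le.1 (hC N hN3)).2
  rw [hset] at hJ
  have h1 : Real.exp (∑ l ∈ (range (N + 1)).filter Nat.Prime, (-(1 : ℝ) / (l - 1))) ≤ VV z := by
    unfold VV
    rw [Real.exp_sum]
    refine Finset.prod_le_prod (fun l _ => (Real.exp_pos _).le) ?_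
    intro l hl
    have hl2 : (2 : ℝ) ≤ l := by exact_mod_cast (mem_filter.1 hl).2.two_le
    have h2 : (1 : ℝ) + 1 / (l - 1) ≤ Real.exp (1 / (l - 1)) := by
      have := Real.add_one_le_exp (1 / ((l : ℝ) - 1))
      linarith
    have h3 : (0 : ℝ) < l - 1 := by linarith
    have h4 : (0 : ℝ) < 1 + 1 / (l - 1) := by positivity
    have h5 : -(1 : ℝ) / (l - 1) = -(1 / (l - 1)) := by ring
    rw [h5, Real.exp_neg]
    have h6 : (1 : ℝ) - 1 / (l : ℝ) = (1 + 1 / ((l : ℝ) - 1))⁻¹ := by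
      have h9 : (l : ℝ) ≠ 0 := by linarith
      have h10 : (1 : ℝ) + 1 / ((l : ℝ) - 1) = l / (l - 1) := by field_simp; ring
      rw [h10, inv_div]
      field_simp
    rw [h6]
    exact inv_anti₀ h4 h2
  have h7 : ∑ l ∈ (range (N + 1)).filter Nat.Prime, (-(1 : ℝ) / (l - 1)) =
      -∑ l ∈ (range (N + 1)).filter Nat.Prime, ((1 : ℝ) / (l - 1) - 1 / l) -
      ∑ l ∈ (range (N + 1)).filter Nat.Prime, (1 : ℝ) / l := by
    rw [← Finset.sum_neg_distrib, ← Finset.sum_sub_distrib]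
    refine Finset.sum_congr rfl ?_
    intro l _
    ring
  have h8 := tele N
  refine le_trans ?_ h1
  calc Real.exp (-C - 1) / Real.log z ≤ Real.exp (-C - 1) / Real.log N :=
        div_le_div_of_nonneg_left (Real.exp_pos _).le hlN hlz
    _ = Real.exp (-C - 1 - Real.log (Real.log N)) := by
        rw [Real.exp_sub (-C - 1), Real.exp_log hlN]
    _ ≤ _ := by
        refine Real.exp_le_exp.2 ?_
        rw [h7]
        linarith

open Classical in
/-- multiples of `p` with a property of the cofactor -/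
theorem card_mult (a L p : ℕ) (hp : 0 < p) (P : ℕ → Prop) :
    ((Ico a (a + L)).filter (fun n => p ∣ n ∧ P (n / p))).card ≤
      ((Ico (a / p) (a / p + (L / p + 2))).filter P).card := by
  refine Finset.card_le_card_of_injOn (fun n => n / p) ?_ ?_
  · intro n hn
    rw [Finset.mem_coe, mem_filter, mem_Ico] at hn
    obtain ⟨⟨h1, h2⟩, _, h4⟩ := hn
    rw [Finset.mem_coe, mem_filter, mem_Ico]
    refine ⟨⟨Nat.div_le_div_right h1, ?_⟩, h4⟩
    have h5 : n / p ≤ (a + L) / p := Nat.div_le_div_right h2.le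
    have h6 : (a + L) / p ≤ a / p + L / p + 1 := by
      rw [Nat.add_div hp]
      split_ifs <;> omega
    show n / p < _
    omega
  · intro n hn m hm h
    rw [Finset.mem_coe, mem_filter] at hn hm
    have h1 := Nat.div_mul_cancel hn.2.1
    have h2 := Nat.div_mul_cancel hm.2.1
    have h' : n / p = m / p := h
    rw [← h1, ← h2, h']

open Classical in
/-- numbers with a large square divisor in a short interval -/
theorem card_sq (a L r Y : ℕ) (hr : 0 < r) (hY : r ≤ Y) (ha : 0 < a) (hL : L ^ 2 ≤ 4 * a) :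
    (((Ico a (a + L)).filter (fun n => ∃ m : ℕ, r < m ∧ m ^ 2 ∣ n)).card : ℝ) ≤
      L / r + 2 * Y + (a + L) / (Y : ℝ) ^ 2 := by
  set K := (a + L) / Y ^ 2 with hK
  have hsub : (Ico a (a + L)).filter (fun n => ∃ m : ℕ, r < m ∧ m ^ 2 ∣ n) ⊆
      (Ioc r Y).biUnion (fun m => (Ico a (a + L)).filter (fun n => m ^ 2 ∣ n ∧ True)) ∪
      (Icc 1 K).biUnion (fun k => (Ico a (a + L)).filter (fun n => ∃ m : ℕ, n = m ^ 2 * k)) := by
    intro n hn
    rw [mem_filter] at hn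
    obtain ⟨hI, m, hm, hd⟩ := hn
    rw [mem_union, mem_biUnion, mem_biUnion]
    by_cases hmY : m ≤ Y
    · left
      exact ⟨m, mem_Ioc.2 ⟨hm, hmY⟩, mem_filter.2 ⟨hI, hd, trivial⟩⟩
    · right
      obtain ⟨k, hk⟩ := hd
      have hI' := mem_Ico.1 hI
      refine ⟨k, mem_Icc.2 ⟨?_, ?_⟩, mem_filter.2 ⟨hI, m, hk⟩⟩
      · rcases Nat.eq_zero_or_pos k with h | h
        · subst h
          omega
        · exact h
      · rw [hK, Nat.le_div_iff_mul_le (by have : 0 < Y := by omega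
                                          positivity)]
        have : Y ^ 2 ≤ m ^ 2 := Nat.pow_le_pow_left (by omega) 2
        have h2 : k * Y ^ 2 ≤ k * m ^ 2 := Nat.mul_le_mul_left k this
        have h3 : k * m ^ 2 = n := by rw [hk]; ring
        omega
  have h1 : ∀ m ∈ Ioc r Y, (((Ico a (a + L)).filter (fun n => m ^ 2 ∣ n ∧ True)).card : ℝ) ≤
      L * ((m : ℝ) ^ 2)⁻¹ + 2 := by
    intro m hm
    have hm0 : 0 < m := by have := (mem_Ioc.1 hm).1; omega
    have h := card_mult a L (m ^ 2) (by positivity) (fun _ => True)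
    have h' : ((Ico (a / m ^ 2) (a / m ^ 2 + (L / m ^ 2 + 2))).filter (fun _ => True)).card
        = L / m ^ 2 + 2 := by
      simp
    have h3 : ((L / m ^ 2 : ℕ) : ℝ) ≤ (L : ℝ) / ((m ^ 2 : ℕ) : ℝ) := Nat.cast_div_le
    have h4 : (((Ico a (a + L)).filter (fun n => m ^ 2 ∣ n ∧ True)).card : ℝ) ≤
        ((L / m ^ 2 + 2 : ℕ) : ℝ) := by
      rw [← h']
      exact_mod_cast (by convert h)
    push_cast at h3 h4
    rw [div_eq_mul_inv] at h3
    linarith
  have h2 : ∀ k ∈ Icc 1 K, ((Ico a (a + L)).filter (fun n => ∃ m : ℕ, n = m ^ 2 * k)).card ≤ 1 := by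
    intro k hk
    have hk1 : 1 ≤ k := (mem_Icc.1 hk).1
    have key : ∀ m m' : ℕ, m < m' → a ≤ m ^ 2 * k → m' ^ 2 * k < a + L → False := by
      intro m m' hlt h5 h6
      have h7 : (m + 1) ^ 2 * k ≤ m' ^ 2 * k :=
        Nat.mul_le_mul_right k (Nat.pow_le_pow_left hlt 2)
      have h8 : 2 * m * k < L := by nlinarith
      have h9 : (2 * m * k) ^ 2 < L ^ 2 := Nat.pow_lt_pow_left h8 (by norm_num)
      have h10 : m ^ 2 * k ≤ m ^ 2 * k * k := Nat.le_mul_of_pos_right _ hk1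
      nlinarith
    rw [Finset.card_le_one]
    intro n hn n' hn'
    rw [mem_filter, mem_Ico] at hn hn'
    obtain ⟨⟨h3, h4⟩, m, rfl⟩ := hn
    obtain ⟨⟨h3', h4'⟩, m', rfl⟩ := hn'
    rcases lt_trichotomy m m' with h | h | h
    · exact (key m m' h h3 h4').elim
    · rw [h]
    · exact (key m' m h h3' h4).elim
  have h3 := (Finset.card_le_card hsub).trans (Finset.card_union_le _ _)
  have h4 := Finset.card_biUnion_le (s := Ioc r Y)
    (t := fun m => (Ico a (a + L)).filter (fun n => m ^ 2 ∣ n ∧ True))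
  have h5 := Finset.card_biUnion_le (s := Icc 1 K)
    (t := fun k => (Ico a (a + L)).filter (fun n => ∃ m : ℕ, n = m ^ 2 * k))
  have h6 : ∑ k ∈ Icc 1 K, ((Ico a (a + L)).filter (fun n => ∃ m : ℕ, n = m ^ 2 * k)).card ≤ K := by
    refine (Finset.sum_le_sum h2).trans ?_
    simp
  have h7 : ((∑ m ∈ Ioc r Y, ((Ico a (a + L)).filter (fun n => m ^ 2 ∣ n ∧ True)).card : ℕ) : ℝ) ≤
      L / r + 2 * Y := by
    push_cast
    refine (Finset.sum_le_sum h1).trans ?_
    rw [Finset.sum_add_distrib, ← Finset.mul_sum]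
    have h8 := sum_Ioc_inv_sq_le_sub (α := ℝ) hr.ne' hY
    have h9 : (0 : ℝ) ≤ (Y : ℝ)⁻¹ := by positivity
    have h10 : (L : ℝ) * ∑ i ∈ Ioc r Y, ((i : ℝ) ^ 2)⁻¹ ≤ L * (r : ℝ)⁻¹ :=
      mul_le_mul_of_nonneg_left (by linarith) (by positivity)
    have h11 : ∑ _i ∈ Ioc r Y, (2 : ℝ) ≤ 2 * Y := by
      rw [Finset.sum_const, Nat.card_Ioc, nsmul_eq_mul]
      have : ((Y - r : ℕ) : ℝ) ≤ Y := by exact_mod_cast Nat.sub_le Y r
      linarith
    rw [div_eq_mul_inv]
    linarith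
  have h8 : (K : ℝ) ≤ (a + L) / (Y : ℝ) ^ 2 := by
    have : ((((a + L) / Y ^ 2 : ℕ)) : ℝ) ≤ ((a + L : ℕ) : ℝ) / ((Y ^ 2 : ℕ) : ℝ) := Nat.cast_div_le
    push_cast at this
    exact this
  have h9 : (((Ico a (a + L)).filter (fun n => ∃ m : ℕ, r < m ∧ m ^ 2 ∣ n)).card : ℝ) ≤
      ((∑ m ∈ Ioc r Y, ((Ico a (a + L)).filter (fun n => m ^ 2 ∣ n ∧ True)).card : ℕ) : ℝ) + K := by
    exact_mod_cast h3.trans (Nat.add_le_add h4 (h5.trans h6))
  linarith

theorem rough_div {R : ℝ} {n d : ℕ} (h : Rough R n) (hd : d ∣ n) : Rough R (n / d) :=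
  fun p hp hpn => h p hp (hpn.trans (Nat.div_dvd_of_dvd hd))

open Classical in
/-- the pointwise inequality -/
theorem point (n : ℕ) (_hn : 0 < n) (R D₁ D₂ z B : ℝ) (hR : 0 ≤ R) (hD₁ : 0 ≤ D₁) (hz : z ≤ D₁)
    (hD₂ : 1 ≤ D₂) (hB : Real.log n ≤ B) (hr : Rough R n) :
    Real.log n ≤ (if (Rough R n ∧ ∃ q : ℕ, q.Prime ∧ q ∣ n ∧ D₂ ≤ (q : ℝ)) then B else 0) +
      (if (∃ m : ℕ, ⌊R⌋₊ < m ∧ m ^ 2 ∣ n) then B else 0) +
      ∑ p ∈ (Icc 1 ⌊D₁⌋₊).filter Nat.Prime, (if (p ∣ n ∧ Rough R (n / p)) then Real.log p else 0) +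
      ∑ d ∈ (Ioc ⌊D₁⌋₊ ⌊D₂⌋₊).filter (Rough z),
        (if (d ∣ n ∧ Rough R (n / d)) then Real.log D₂ else 0) := by
  have hl0 : 0 ≤ Real.log n := Real.log_natCast_nonneg n
  have hB0 : 0 ≤ B := hl0.trans hB
  have hlD : 0 ≤ Real.log D₂ := Real.log_nonneg hD₂
  have s1 : 0 ≤ ∑ p ∈ (Icc 1 ⌊D₁⌋₊).filter Nat.Prime,
      (if (p ∣ n ∧ Rough R (n / p)) then Real.log p else 0) :=
    Finset.sum_nonneg fun p _ => by
      split_ifs
      · exact Real.log_natCast_nonneg p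
      · exact le_rfl
  have s2 : 0 ≤ ∑ d ∈ (Ioc ⌊D₁⌋₊ ⌊D₂⌋₊).filter (Rough z),
      (if (d ∣ n ∧ Rough R (n / d)) then Real.log D₂ else 0) :=
    Finset.sum_nonneg fun p _ => by
      split_ifs
      · exact hlD
      · exact le_rfl
  by_cases h1 : (Rough R n ∧ ∃ q : ℕ, q.Prime ∧ q ∣ n ∧ D₂ ≤ (q : ℝ))
  · rw [if_pos h1]
    have : 0 ≤ (if (∃ m : ℕ, ⌊R⌋₊ < m ∧ m ^ 2 ∣ n) then B else 0) := by split_ifs <;> simp [hB0]
    linarith
  rw [if_neg h1]
  by_cases h2 : (∃ m : ℕ, ⌊R⌋₊ < m ∧ m ^ 2 ∣ n)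
  · rw [if_pos h2]
    linarith
  rw [if_neg h2]
  have hsq : Squarefree n := by
    rw [Nat.squarefree_iff_prime_squarefree]
    intro p hp hpp
    refine h2 ⟨p, ?_, by rw [sq]; exact hpp⟩
    have := hr p hp ((Dvd.intro p rfl).trans hpp)
    exact (Nat.floor_lt hR).2 this
  have hlog : Real.log n = ∑ p ∈ n.primeFactors, Real.log p := by
    conv_lhs => rw [← Nat.prod_primeFactors_of_squarefree hsq]
    push_cast
    rw [Real.log_prod]
    intro p hp
    exact_mod_cast (Nat.prime_of_mem_primeFactors hp).ne_zero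
  rw [hlog, ← Finset.sum_filter_add_sum_filter_not n.primeFactors (fun p => p ≤ ⌊D₁⌋₊)]
  have t1 : ∑ p ∈ n.primeFactors.filter (fun p => p ≤ ⌊D₁⌋₊), Real.log p ≤
      ∑ p ∈ (Icc 1 ⌊D₁⌋₊).filter Nat.Prime,
        (if (p ∣ n ∧ Rough R (n / p)) then Real.log p else 0) := by
    rw [← Finset.sum_filter]
    refine Finset.sum_le_sum_of_subset_of_nonneg ?_ (fun p _ _ => Real.log_natCast_nonneg p)
    intro p hp
    rw [mem_filter] at hp
    have hpp := Nat.prime_of_mem_primeFactors hp.1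
    have hpd := Nat.dvd_of_mem_primeFactors hp.1
    rw [mem_filter, mem_filter, mem_Icc]
    exact ⟨⟨⟨hpp.one_lt.le, hp.2⟩, hpp⟩, hpd, rough_div hr hpd⟩
  have t2 : ∑ p ∈ n.primeFactors.filter (fun p => ¬ p ≤ ⌊D₁⌋₊), Real.log p ≤
      ∑ d ∈ (Ioc ⌊D₁⌋₊ ⌊D₂⌋₊).filter (Rough z),
        (if (d ∣ n ∧ Rough R (n / d)) then Real.log D₂ else 0) := by
    rw [← Finset.sum_filter]
    have hlt : ∀ p ∈ n.primeFactors, (p : ℝ) < D₂ := by
      intro p hp
      by_contra hc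
      exact h1 ⟨hr, p, Nat.prime_of_mem_primeFactors hp, Nat.dvd_of_mem_primeFactors hp,
        not_lt.1 hc⟩
    calc _ ≤ ∑ p ∈ n.primeFactors.filter (fun p => ¬ p ≤ ⌊D₁⌋₊), Real.log D₂ := by
          refine Finset.sum_le_sum fun p hp => ?_
          have hp1 := (mem_filter.1 hp).1
          have : (0 : ℝ) < p := by exact_mod_cast (Nat.prime_of_mem_primeFactors hp1).pos
          exact Real.log_le_log this (hlt p hp1).le
      _ ≤ _ := by
          refine Finset.sum_le_sum_of_subset_of_nonneg ?_ (fun p _ _ => hlD)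
          intro p hp
          rw [mem_filter] at hp
          have hpp := Nat.prime_of_mem_primeFactors hp.1
          have hpd := Nat.dvd_of_mem_primeFactors hp.1
          rw [mem_filter, mem_filter, mem_Ioc]
          refine ⟨⟨⟨not_le.1 hp.2, Nat.le_floor (hlt p hp.1).le⟩, ?_⟩, hpd, rough_div hr hpd⟩
          intro q hq hqp
          have hqe : q = p := (Nat.prime_dvd_prime_iff_eq hq hpp).1 hqp
          have := (Nat.floor_lt hD₁).1 (not_le.1 hp.2)
          rw [hqe]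
          linarith
  linarith

open Classical in
/-- the summed inequality -/
theorem summed (a L : ℕ) (ha : 0 < a) (R D₁ D₂ z B : ℝ) (hR : 0 ≤ R) (hD₁ : 0 ≤ D₁) (hz : z ≤ D₁)
    (hD₂ : 1 ≤ D₂) (hB : Real.log ((a + L : ℕ) : ℝ) ≤ B) :
    (((Ico a (a + L)).filter (Rough R)).card : ℝ) * Real.log a ≤
      (((Ico a (a + L)).filter
        (fun n => Rough R n ∧ ∃ q : ℕ, q.Prime ∧ q ∣ n ∧ D₂ ≤ (q : ℝ))).card : ℝ) * B +
      (((Ico a (a + L)).filter (fun n => ∃ m : ℕ, ⌊R⌋₊ < m ∧ m ^ 2 ∣ n)).card : ℝ) * B +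
      ∑ p ∈ (Icc 1 ⌊D₁⌋₊).filter Nat.Prime,
        (((Ico a (a + L)).filter (fun n => p ∣ n ∧ Rough R (n / p))).card : ℝ) * Real.log p +
      (∑ d ∈ (Ioc ⌊D₁⌋₊ ⌊D₂⌋₊).filter (Rough z),
        (((Ico a (a + L)).filter (fun n => d ∣ n ∧ Rough R (n / d))).card : ℝ)) * Real.log D₂ := by
  have ha' : (0 : ℝ) < a := by exact_mod_cast ha
  have hlD : 0 ≤ Real.log D₂ := Real.log_nonneg hD₂
  have hB0 : 0 ≤ B := (Real.log_natCast_nonneg _).trans hB
  have hcard : ∀ (P : ℕ → Prop) [DecidablePred P] (c : ℝ),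
      (((Ico a (a + L)).filter P).card : ℝ) * c =
      ∑ n ∈ Ico a (a + L), (if P n then c else 0) := by
    intro P _ c
    rw [← Finset.sum_filter, Finset.sum_const, nsmul_eq_mul]
  rw [Finset.sum_mul]
  simp only [hcard]
  rw [Finset.sum_comm (s := (Icc 1 ⌊D₁⌋₊).filter Nat.Prime),
    Finset.sum_comm (s := (Ioc ⌊D₁⌋₊ ⌊D₂⌋₊).filter (Rough z)),
    ← Finset.sum_add_distrib, ← Finset.sum_add_distrib, ← Finset.sum_add_distrib]
  refine Finset.sum_le_sum fun n hn => ?_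
  rw [mem_Ico] at hn
  have hn0 : 0 < n := by omega
  have hn0' : (0 : ℝ) < n := by exact_mod_cast hn0
  by_cases hr : Rough R n
  · rw [if_pos hr]
    have h1 : Real.log a ≤ Real.log n := Real.log_le_log ha' (by exact_mod_cast hn.1)
    have h2 : Real.log n ≤ B :=
      (Real.log_le_log hn0' (by exact_mod_cast hn.2.le)).trans hB
    have := point n hn0 R D₁ D₂ z B hR hD₁ hz hD₂ h2 hr
    refine h1.trans ?_
    convert this
  · rw [if_neg hr]
    refine add_nonneg (add_nonneg (add_nonneg ?_ ?_) ?_) ?_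
    · split_ifs <;> simp [hB0]
    · split_ifs <;> simp [hB0]
    · exact Finset.sum_nonneg fun p _ => by
        split_ifs
        · exact Real.log_natCast_nonneg p
        · exact le_rfl
    · exact Finset.sum_nonneg fun p _ => by
        split_ifs
        · exact hlD
        · exact le_rfl

end Pool.Agent.H301Z.CH
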